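import Pool.Agent.Helper54.GA.Stmts

/-!
# GA-G1: windows at every time `k` with `2 ^ k ≤ x`

`g1`: at the time `k` all but `C x min (1, (1 + log w) / √k)` of the windows in `(0, x]` have merged. As in `RU.win_sharp`, `J = ⌊w⌋₊`,
`t = ⌈100 log (2 J + 2)⌉₊ ≤ k / 2` if `402 (1 + log w) < √k`, and `uni_sharp` for `t` and `k - t`.
-/

set_option autoImplicit false

namespace Pool.Agent.Helper58.GA

open Pool.Agent.Helper68.Moeller Pool.Agent.Helper8 Pool.Agent.Helper8.CO Pool.Agent.Helper8.ND Pool.Agent.Helper54.GA Finset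

variable {ρ : ℤ}

private lemma w58_uni (hρ : Odd ρ) : ∃ C : ℝ, 0 < C ∧
    ∀ (J t k : ℕ) (a : ℤ) (N : ℕ) (S : Set ℤ), 1 ≤ k →
    (∀ n ∈ S, a < n ∧ n ≤ a + N ∧ ¬ ∀ j : ℕ, j ≤ J → MM ρ (t + k) 0 n (n + ρ * j)) →
    (S.ncard : ℝ) ≤ ((N : ℝ) + 2 ^ (t + k)) * (C * (k : ℝ) ^ (-(1 / 2 : ℝ)) *
        ((t : ℝ) + 1 + ((J : ℝ) + 1) ^ 2 * (98 / 100) ^ t)) := by
  classical
  obtain ⟨C, hC, h⟩ := RU.uni_sharp hρ
  refine ⟨C, hC, fun J t k a N S hk hS => ?_⟩
  refine le_trans (Nat.cast_le.2 ?_) (h J t k a N hk)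
  rw [← Set.ncard_coe_finset]
  refine Set.ncard_le_ncard (fun n hn => ?_) (Finset.finite_toSet _)
  obtain ⟨h1, h2, h3⟩ := hS n hn
  rw [Finset.mem_coe, Finset.mem_filter, Finset.mem_Ioc]
  exact ⟨⟨h1, h2⟩, h3⟩

theorem g1 : StmtG1 := by
  intro ρ hρ
  obtain ⟨C₀, hC₀, hr⟩ := w58_uni hρ
  refine ⟨402 + 1000 * C₀, by positivity, fun k₀ x w hk₀ hkx hw => ?_⟩
  have hlw : 0 ≤ Real.log w := Real.log_nonneg hw
  have hk₀r : (1 : ℝ) ≤ k₀ := by exact_mod_cast hk₀
  have hk₀0 : (0 : ℝ) < k₀ := by linarith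
  have hsq : 0 < Real.sqrt k₀ := Real.sqrt_pos.2 hk₀0
  have hx0 : 0 < x := lt_of_lt_of_le (by positivity) hkx
  obtain ⟨q, hq⟩ : ∃ q : ℝ, q = (1 + Real.log w) / Real.sqrt k₀ := ⟨_, rfl⟩
  rw [← hq]
  have hq0 : 0 < q := by rw [hq]; positivity
  rcases le_or_gt (1 / 402) q with hbig | hsm
  · -- the trivial bound
    have h1 : (1 / 402 : ℝ) ≤ min 1 q := le_min (by norm_num) hbig
    calc cN _ x ≤ 1 * x := by rw [one_mul]; exact cN_le _ hx0.le
      _ ≤ (402 + 1000 * C₀) * min 1 q * x := by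
          refine mul_le_mul_of_nonneg_right ?_ hx0.le
          nlinarith [mul_pos hC₀ (lt_of_lt_of_le (by norm_num : (0 : ℝ) < 1 / 402) h1)]
  · have hmin : min 1 q = q := min_eq_right (by linarith)
    rw [hmin]
    have hsm' : 402 * (1 + Real.log w) < Real.sqrt k₀ := by
      rw [hq, div_lt_iff₀ hsq] at hsm
      linarith
    have hsk : Real.sqrt k₀ ≤ k₀ := by
      rw [Real.sqrt_le_left hk₀0.le]
      nlinarith
    -- the window
    obtain ⟨J, hJ⟩ : ∃ J : ℕ, J = ⌊w⌋₊ := ⟨_, rfl⟩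
    have hJle : (J : ℝ) ≤ w := by rw [hJ]; exact Nat.floor_le (by linarith)
    have hJ0 : (0 : ℝ) ≤ J := Nat.cast_nonneg _
    have hl21 : Real.log 2 ≤ 1 := by linarith [Real.log_two_lt_d9]
    have hlogJ : Real.log (2 * J + 2) ≤ 2 + Real.log w := by
      have h1 : (2 : ℝ) * J + 2 ≤ 4 * w := by linarith
      have h2 := Real.log_le_log (by positivity) h1
      rw [Real.log_mul (by norm_num) (by linarith)] at h2
      have h3 : Real.log 4 = 2 * Real.log 2 := by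
        rw [show (4 : ℝ) = 2 ^ 2 by norm_num, Real.log_pow]
        norm_num
      linarith
    have hlogJ0 : 0 ≤ Real.log (2 * J + 2) := Real.log_nonneg (by linarith)
    obtain ⟨t, ht⟩ : ∃ t : ℕ, t = ⌈100 * Real.log (2 * J + 2)⌉₊ := ⟨_, rfl⟩
    have htge : 100 * Real.log (2 * J + 2) ≤ t := by rw [ht]; exact Nat.le_ceil _
    have htle : (t : ℝ) ≤ 201 + 100 * Real.log w := by
      have h1 := Nat.ceil_lt_add_one (by positivity : 0 ≤ 100 * Real.log (2 * J + 2))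
      rw [← ht] at h1
      linarith
    have hsmall : (((2 * J : ℕ) : ℝ) + 1) ^ 2 * (98 / 100 : ℝ) ^ t ≤ 1 := by
      have h1 : (98 / 100 : ℝ) ^ t ≤ Real.exp (-(2 * Real.log (2 * J + 2))) := by
        have h2 : (98 / 100 : ℝ) ≤ Real.exp (-(2 / 100)) := by
          have := Real.add_one_le_exp (-(2 / 100 : ℝ))
          linarith
        calc (98 / 100 : ℝ) ^ t ≤ Real.exp (-(2 / 100)) ^ t := pow_le_pow_left₀ (by norm_num) h2 t
          _ = Real.exp (t * (-(2 / 100))) := by rw [← Real.exp_nat_mul]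
          _ ≤ Real.exp (-(2 * Real.log (2 * J + 2))) := by
              apply Real.exp_le_exp.2
              linarith
      have h3 : Real.exp (-(2 * Real.log (2 * J + 2))) = ((2 * (J : ℝ) + 2) ^ 2)⁻¹ := by
        rw [Real.exp_neg, two_mul (Real.log _), Real.exp_add, Real.exp_log (by positivity), ← pow_two]
      rw [h3] at h1
      calc (((2 * J : ℕ) : ℝ) + 1) ^ 2 * (98 / 100 : ℝ) ^ t
          ≤ (((2 * J : ℕ) : ℝ) + 1) ^ 2 * ((2 * (J : ℝ) + 2) ^ 2)⁻¹ :=
            mul_le_mul_of_nonneg_left h1 (by positivity)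
        _ ≤ 1 := by
            rw [← div_eq_mul_inv, div_le_one (by positivity)]
            push_cast
            exact pow_le_pow_left₀ (by positivity) (by linarith) 2
    -- the remaining steps
    have htk : (t : ℝ) ≤ (k₀ : ℝ) / 2 := by linarith
    have htk' : t ≤ k₀ := by
      have : (t : ℝ) ≤ (k₀ : ℝ) := by linarith
      exact_mod_cast this
    obtain ⟨k, hk⟩ := Nat.exists_eq_add_of_le htk'
    have hkr : (k₀ : ℝ) = t + k := by exact_mod_cast hk
    have hk2 : (k₀ : ℝ) / 2 ≤ (k : ℝ) := by linarith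
    have hk0 : (0 : ℝ) < k := by linarith
    have hk1 : 1 ≤ k := by exact_mod_cast hk0
    have hkc : (k : ℝ) ^ (-(1 / 2 : ℝ)) ≤ 2 / Real.sqrt k₀ := by
      rw [Real.rpow_neg hk0.le, ← Real.sqrt_eq_rpow, ← one_div,
        div_le_div_iff₀ (Real.sqrt_pos.2 hk0) hsq, one_mul]
      rw [Real.sqrt_le_left (by positivity), mul_pow, Real.sq_sqrt hk0.le]
      linarith
    have hpow : (2 : ℝ) ^ (t + k) ≤ x := by rw [← hk]; exact hkx
    -- the bad set
    obtain ⟨S, hS⟩ : ∃ S : Set ℤ, S = {n : ℤ | n ∈ {n : ℤ | ∃ h : ℤ, ρ ∣ h ∧ |(h : ℝ)| ≤ w ∧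
      ¬ MM ρ k₀ 0 n (n + h)} ∧ 0 < n ∧ (n : ℝ) ≤ x} := ⟨_, rfl⟩
    unfold cN
    rw [← hS]
    have hinj : Function.Injective (fun n : ℤ => n - ρ * J) := fun a b h => by
      have h' : a - ρ * J = b - ρ * J := h
      linarith
    have hmain := hr (2 * J) t k (-(ρ * J)) ⌊x⌋₊ ((fun n : ℤ => n - ρ * J) '' S) hk1 (by
      rintro _ ⟨n, hn, rfl⟩
      rw [hS] at hn
      obtain ⟨⟨h, ⟨η, rfl⟩, hη, hM⟩, hn1, hn2⟩ := hn
      have hnx : n ≤ (⌊x⌋₊ : ℤ) := by
        rw [Int.natCast_floor_eq_floor hx0.le]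
        exact Int.le_floor.2 hn2
      refine ⟨by simp only; linarith, by simp only; linarith, ?_⟩
      intro hall
      apply hM
      have hρ0 : ρ ≠ 0 := by
        rintro rfl
        exact absurd hρ (by decide)
      have hρ1 : (1 : ℝ) ≤ |(ρ : ℝ)| := by
        have : (1 : ℤ) ≤ |ρ| := Int.one_le_abs hρ0
        exact_mod_cast this
      have hηJ : |η| ≤ J := by
        have h1 : |(η : ℝ)| ≤ w := by
          refine le_trans ?_ hη
          push_cast
          rw [abs_mul]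
          exact le_mul_of_one_le_left (abs_nonneg _) hρ1
        have h2 : η.natAbs ≤ J := by
          rw [hJ]
          refine Nat.le_floor ?_
          rw [Nat.cast_natAbs, Int.cast_abs]
          exact h1
        rw [Int.abs_eq_natAbs]
        exact_mod_cast h2
      have h1 := hall J (by omega)
      obtain ⟨hη1, hη2⟩ := abs_le.1 hηJ
      obtain ⟨i, hi⟩ := Int.eq_ofNat_of_zero_le (by linarith : 0 ≤ (J : ℤ) + η)
      have h2 := hall i (by omega)
      have e1 : n - ρ * J + ρ * (J : ℤ) = n := by ring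
      have e2 : n - ρ * J + ρ * (i : ℤ) = n + ρ * η := by
        rw [← hi]
        ring
      simp only at h1 h2
      rw [e1] at h1
      rw [e2] at h2
      rw [hk]
      exact MM_trans (MM_symm h1) h2)
    rw [Set.ncard_image_of_injective _ hinj] at hmain
    have hA : (⌊x⌋₊ : ℝ) + 2 ^ (t + k) ≤ 2 * x := by linarith [Nat.floor_le hx0.le]
    have hB : C₀ * (k : ℝ) ^ (-(1 / 2 : ℝ)) *
        ((t : ℝ) + 1 + (((2 * J : ℕ) : ℝ) + 1) ^ 2 * (98 / 100) ^ t) ≤
        C₀ * (2 / Real.sqrt k₀) * (203 * (1 + Real.log w)) := by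
      refine mul_le_mul (mul_le_mul_of_nonneg_left hkc hC₀.le) (by linarith) (by positivity)
        (by positivity)
    calc (S.ncard : ℝ) ≤ ((⌊x⌋₊ : ℝ) + 2 ^ (t + k)) * (C₀ * (k : ℝ) ^ (-(1 / 2 : ℝ)) *
          ((t : ℝ) + 1 + (((2 * J : ℕ) : ℝ) + 1) ^ 2 * (98 / 100) ^ t)) := hmain
      _ ≤ (2 * x) * (C₀ * (2 / Real.sqrt k₀) * (203 * (1 + Real.log w))) :=
          mul_le_mul hA hB (by positivity) (by positivity)
      _ = 812 * C₀ * q * x := by rw [hq]; ring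
      _ ≤ (402 + 1000 * C₀) * q * x := by
          refine mul_le_mul_of_nonneg_right ?_ hx0.le
          refine mul_le_mul_of_nonneg_right ?_ hq0.le
          linarith

end Pool.Agent.Helper58.GA
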