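import Pool.Agent.Helper54.GA.Stmts4
import Pool.Agent.Helper77.GA.M1

/-!
# GA-S2: a positive proportion of the points is almost surrounded by an invariant set, at all scales up to `x ^ θ`
-/

set_option autoImplicit false

namespace Pool.Agent.Helper58.GA

open Pool.Agent.Helper68.Moeller Pool.Agent.Helper8 Pool.Agent.Helper8.CO Pool.Agent.Helper8.ND Pool.Agent.Helper54.GA
  Filter Topology Finset

/-- good points -/
private def Good58 (G : Set ℤ) (ε X : ℝ) (k : ℤ) : Prop :=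
  ∀ t : ℝ, 1 ≤ t → t ≤ X → ({h : ℤ | |(h : ℝ)| ≤ t ∧ k + h ∉ G}.ncard : ℝ) ≤ ε * t

open Classical in
/-- the good points in the middle of a window which is almost contained in `G` -/
private theorem mid58 {G : Set ℤ} {ε X H : ℝ} (hε : 0 < ε) (hX : X ≤ H / 3) (hH : 20 ≤ H) {n : ℤ}
    (hn : (((Finset.Icc n (n + ⌊H⌋)).filter (fun k => k ∉ G)).card : ℝ) ≤ ε / 72 * H) :
    H / 5 ≤ (((Finset.Icc (n + ⌈H / 3⌉) (n + ⌊2 * H / 3⌋)).filter (fun k => Good58 G ε X k)).card : ℝ) := by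
  obtain ⟨a, ha⟩ : ∃ a : ℤ, a = ⌈H / 3⌉ := ⟨_, rfl⟩
  obtain ⟨b, hb⟩ : ∃ b : ℤ, b = ⌊2 * H / 3⌋ := ⟨_, rfl⟩
  obtain ⟨A, hA⟩ : ∃ A : Finset ℤ, A = (Finset.Icc n (n + ⌊H⌋)).filter (fun k => k ∉ G) := ⟨_, rfl⟩
  rw [← hA] at hn
  rw [← ha, ← hb]
  have ha1 : H / 3 ≤ a := by rw [ha]; exact Int.le_ceil _
  have ha2 : (a : ℝ) < H / 3 + 1 := by rw [ha]; exact Int.ceil_lt_add_one _
  have hb1 : (b : ℝ) ≤ 2 * H / 3 := by rw [hb]; exact Int.floor_le _
  have hb2 : 2 * H / 3 < b + 1 := by rw [hb]; exact Int.lt_floor_add_one _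
  obtain ⟨J, hJ⟩ : ∃ J : Finset ℤ, J = Finset.Icc (n + a) (n + b) := ⟨_, rfl⟩
  rw [← hJ]
  have hJc : H / 3 - 1 ≤ (J.card : ℝ) := by
    rw [hJ, Int.card_Icc]
    have h1 : ((n + b + 1 - (n + a) : ℤ) : ℝ) ≤ ((n + b + 1 - (n + a)).toNat : ℝ) := by
      have h2 := Int.self_le_toNat (n + b + 1 - (n + a))
      exact_mod_cast h2
    refine le_trans ?_ h1
    push_cast
    linarith
  obtain ⟨F, hF⟩ : ∃ F : Finset ℤ, F = J.filter (fun k => ¬ Good58 G ε X k) := ⟨_, rfl⟩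
  have hsplit : J.card = (J.filter (fun k => Good58 G ε X k)).card + F.card := by
    rw [hF]
    exact (Finset.card_filter_add_card_filter_not (s := J) (fun k => Good58 G ε X k)).symm
  have hbad : ∀ k ∈ F, ∃ t : ℝ, 1 ≤ t ∧ t ≤ X ∧ ε * t < ({h : ℤ | |(h : ℝ)| ≤ t ∧ k + h ∉ G}.ncard : ℝ) := by
    intro k hk
    rw [hF, Finset.mem_filter] at hk
    have h1 := hk.2
    unfold Good58 at h1
    push Not at h1
    exact h1
  choose! t ht using hbad
  have hM := Pool.Agent.Helper77.GA.m1 1 ε one_ne_zero hε F A t (fun k hk => by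
    obtain ⟨ht1, ht2, ht3⟩ := ht k hk
    refine ⟨ht1, ht3.trans_le ?_⟩
    refine Nat.cast_le.2 (Set.ncard_le_ncard_of_injOn (fun h => k + h) ?_ ?_ ?_)
    · rintro h ⟨h1, h2⟩
      rw [hF, Finset.mem_filter, hJ, Finset.mem_Icc] at hk
      obtain ⟨⟨h3, h4⟩, -⟩ := hk
      obtain ⟨h5, h6⟩ := abs_le.1 h1
      have h3' : (n : ℝ) + a ≤ k := by exact_mod_cast h3
      have h4' : (k : ℝ) ≤ n + b := by exact_mod_cast h4
      refine ⟨?_, one_dvd _, ?_⟩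
      · rw [hA, Finset.mem_filter, Finset.mem_Icc]
        refine ⟨⟨?_, ?_⟩, h2⟩
        · have : (n : ℝ) ≤ ((k + h : ℤ) : ℝ) := by
            push_cast
            linarith
          exact_mod_cast this
        · have h7 : ((k + h - n : ℤ) : ℝ) ≤ H := by
            push_cast
            linarith
          have h8 := Int.le_floor.2 h7
          linarith
      · have e : k + h - k = h := by ring
        show |((k + h - k : ℤ) : ℝ)| ≤ t k
        rw [e]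
        exact h1
    · intro u _ v _ huv
      have : k + u = k + v := huv
      linarith
    · exact (Finset.finite_toSet A).subset fun k hk => hk.1)
  have hF12 : (F.card : ℝ) ≤ H / 12 := by
    refine hM.trans ?_
    calc 6 / ε * (A.card : ℝ) ≤ 6 / ε * (ε / 72 * H) :=
          mul_le_mul_of_nonneg_left hn (by positivity)
      _ = H / 12 := by field_simp; norm_num
  have h1 : (J.card : ℝ) = ((J.filter (fun k => Good58 G ε X k)).card : ℝ) + F.card := by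
    exact_mod_cast hsplit
  linarith

open Classical in
theorem s2 (h1 : StmtS1) : StmtS2 := by
  intro ρ hρ θ ε hθ hθ1 hε hε1
  obtain ⟨θ', hθ'⟩ : ∃ θ' : ℝ, θ' = (1 + θ) / 2 := ⟨_, rfl⟩
  have hθ'0 : 0 < θ' := by rw [hθ']; linarith
  have hθ'1 : θ' < 1 := by rw [hθ']; linarith
  have hθθ' : 0 < θ' - θ := by rw [hθ']; linarith
  obtain ⟨c, hc, h1⟩ := h1 ρ hρ θ' (ε / 144) hθ'0 hθ'1 (by positivity) (by linarith)
  refine ⟨c / 10, by positivity, fun G z hG D hD hGD => ?_⟩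
  have h2 := h1 G z hG D hD hGD
  have hq : Tendsto (fun x : ℝ => x / 4) atTop atTop := tendsto_id.atTop_div_const (by norm_num)
  have hev1 := hq.eventually h2
  have hev2 : ∀ᶠ x : ℝ in atTop, 20 ≤ (x / 4) ^ θ' :=
    ((tendsto_rpow_atTop hθ'0).comp hq).eventually_ge_atTop 20
  have hev3 : ∀ᶠ x : ℝ in atTop, 3 * 4 ^ θ' ≤ x ^ (θ' - θ) := (tendsto_rpow_atTop hθθ').eventually_ge_atTop _
  filter_upwards [hev1, hev2, hev3, eventually_ge_atTop (4 : ℝ)] with x hx1 hx2 hx3 hx4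
  have hx0 : 0 < x := by linarith
  obtain ⟨y, hy⟩ : ∃ y : ℝ, y = x / 4 := ⟨_, rfl⟩
  rw [← hy] at hx1 hx2
  have hy1 : 1 ≤ y := by rw [hy]; linarith
  have hy0 : 0 < y := by linarith
  obtain ⟨H, hH⟩ : ∃ H : ℝ, H = y ^ θ' := ⟨_, rfl⟩
  rw [← hH] at hx2
  have hHy : H ≤ y := by
    rw [hH]
    calc y ^ θ' ≤ y ^ (1 : ℝ) := Real.rpow_le_rpow_of_exponent_le hy1 hθ'1.le
      _ = y := Real.rpow_one y
  have hX : x ^ θ ≤ H / 3 := by
    have e1 : x ^ θ' = x ^ θ * x ^ (θ' - θ) := by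
      rw [← Real.rpow_add hx0]
      congr 1
      ring
    have e2 : H = x ^ θ' / 4 ^ θ' := by
      rw [hH, hy, Real.div_rpow hx0.le (by norm_num)]
    have h4 : (0 : ℝ) < 4 ^ θ' := by positivity
    rw [e2, e1, le_div_iff₀ (by norm_num), le_div_iff₀ h4]
    have h5 : 0 ≤ x ^ θ := by positivity
    calc x ^ θ * 3 * 4 ^ θ' = x ^ θ * (3 * 4 ^ θ') := by ring
      _ ≤ x ^ θ * x ^ (θ' - θ) := mul_le_mul_of_nonneg_left hx3 h5
  -- the windows
  obtain ⟨S, hS⟩ : ∃ S : Finset ℤ, S = (Finset.Icc ⌈y⌉ ⌊2 * y⌋).filter (fun n : ℤ =>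
    ({h : ℤ | 0 ≤ h ∧ (h : ℝ) ≤ (n : ℝ) ^ θ' ∧ n + h ∉ G}.ncard : ℝ) ≤ ε / 144 * (n : ℝ) ^ θ') := ⟨_, rfl⟩
  have hScard : c * D * y ≤ S.card := by
    refine hx1.trans (Nat.cast_le.2 ?_)
    rw [← Set.ncard_coe_finset]
    refine Set.ncard_le_ncard (fun n hn => ?_) (Finset.finite_toSet _)
    obtain ⟨h3, h4, h5⟩ := hn
    rw [Finset.mem_coe, hS, Finset.mem_filter, Finset.mem_Icc]
    exact ⟨⟨Int.ceil_le.2 h3, Int.le_floor.2 h4.le⟩, h5⟩
  have hSn : ∀ n ∈ S, y ≤ n ∧ (n : ℝ) ≤ 2 * y ∧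
      (((Finset.Icc n (n + ⌊H⌋)).filter (fun k => k ∉ G)).card : ℝ) ≤ ε / 72 * H := by
    intro n hn
    rw [hS, Finset.mem_filter, Finset.mem_Icc] at hn
    obtain ⟨⟨h3, h4⟩, h5⟩ := hn
    have h3' := Int.ceil_le.1 h3
    have h4' := Int.le_floor.1 h4
    have hnH : H ≤ (n : ℝ) ^ θ' := by
      rw [hH]
      exact Real.rpow_le_rpow hy0.le h3' hθ'0.le
    have hn2H : (n : ℝ) ^ θ' ≤ 2 * H := by
      calc (n : ℝ) ^ θ' ≤ (2 * y) ^ θ' := Real.rpow_le_rpow (by linarith) h4' hθ'0.le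
        _ = 2 ^ θ' * y ^ θ' := Real.mul_rpow (by norm_num) hy0.le
        _ ≤ 2 * y ^ θ' := by
            refine mul_le_mul_of_nonneg_right ?_ (by positivity)
            calc (2 : ℝ) ^ θ' ≤ 2 ^ (1 : ℝ) :=
                  Real.rpow_le_rpow_of_exponent_le (by norm_num) hθ'1.le
              _ = 2 := Real.rpow_one 2
        _ = 2 * H := by rw [hH]
    refine ⟨h3', h4', ?_⟩
    have h6 : ((Finset.Icc n (n + ⌊H⌋)).filter (fun k => k ∉ G)).card ≤
        {h : ℤ | 0 ≤ h ∧ (h : ℝ) ≤ (n : ℝ) ^ θ' ∧ n + h ∉ G}.ncard := by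
      rw [← Set.ncard_coe_finset]
      refine Set.ncard_le_ncard_of_injOn (fun k => k - n) ?_ ?_ ?_
      · intro k hk
        rw [Finset.mem_coe, Finset.mem_filter, Finset.mem_Icc] at hk
        obtain ⟨⟨h7, h8⟩, h9⟩ := hk
        refine ⟨by simpa using h7, ?_, ?_⟩
        · have h10 : k - n ≤ ⌊H⌋ := by linarith
          exact (Int.le_floor.1 h10).trans hnH
        · rw [add_sub_cancel]
          exact h9
      · intro u _ v _ huv
        have : u - n = v - n := huv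
        linarith
      · refine (Set.finite_Icc (0 : ℤ) ⌊(n : ℝ) ^ θ'⌋).subset ?_
        rintro h ⟨h7, h8, -⟩
        exact ⟨h7, Int.le_floor.2 h8⟩
    calc (((Finset.Icc n (n + ⌊H⌋)).filter (fun k => k ∉ G)).card : ℝ)
        ≤ ({h : ℤ | 0 ≤ h ∧ (h : ℝ) ≤ (n : ℝ) ^ θ' ∧ n + h ∉ G}.ncard : ℝ) := Nat.cast_le.2 h6
      _ ≤ ε / 144 * (n : ℝ) ^ θ' := h5
      _ ≤ ε / 144 * (2 * H) := mul_le_mul_of_nonneg_left hn2H (by positivity)
      _ = ε / 72 * H := by ring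
  -- double counting
  obtain ⟨a, ha⟩ : ∃ a : ℤ, a = ⌈H / 3⌉ := ⟨_, rfl⟩
  obtain ⟨b, hb⟩ : ∃ b : ℤ, b = ⌊2 * H / 3⌋ := ⟨_, rfl⟩
  have ha1 : H / 3 ≤ a := by rw [ha]; exact Int.le_ceil _
  have hb1 : (b : ℝ) ≤ 2 * H / 3 := by rw [hb]; exact Int.floor_le _
  obtain ⟨K, hK⟩ : ∃ K : Finset ℤ, K = (Finset.Icc (1 : ℤ) ⌊x⌋).filter (fun k => Good58 G ε (x ^ θ) k) := ⟨_, rfl⟩
  have hcN : (K.card : ℝ) ≤ cN {n : ℤ | ∀ t : ℝ, 1 ≤ t → t ≤ x ^ θ →
      ({h : ℤ | |(h : ℝ)| ≤ t ∧ n + h ∉ G}.ncard : ℝ) ≤ ε * t} x := by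
    unfold cN
    refine Nat.cast_le.2 ?_
    rw [← Set.ncard_coe_finset]
    refine Set.ncard_le_ncard (fun k hk => ?_) (finite_cN _ _)
    rw [Finset.mem_coe, hK, Finset.mem_filter, Finset.mem_Icc] at hk
    exact ⟨hk.2, by omega, Int.le_floor.1 hk.1.2⟩
  have hsum : ∑ n ∈ S, (K.filter (fun k => k ∈ Finset.Icc (n + a) (n + b))).card =
      ∑ k ∈ K, (S.filter (fun n => k ∈ Finset.Icc (n + a) (n + b))).card :=
    Finset.sum_card_bipartiteAbove_eq_sum_card_bipartiteBelow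
      (fun (n k : ℤ) => k ∈ Finset.Icc (n + a) (n + b))
  have hlow : (S.card : ℝ) * (H / 5) ≤
      ((∑ n ∈ S, (K.filter (fun k => k ∈ Finset.Icc (n + a) (n + b))).card : ℕ) : ℝ) := by
    rw [← nsmul_eq_mul]
    push_cast
    refine Finset.card_nsmul_le_sum _ _ _ (fun n hn => ?_)
    obtain ⟨h3, h4, h5⟩ := hSn n hn
    refine (mid58 (X := x ^ θ) hε hX hx2 h5).trans (Nat.cast_le.2 (Finset.card_le_card ?_))
    intro k hk
    rw [← ha, ← hb, Finset.mem_filter] at hk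
    obtain ⟨h6, h7⟩ := hk
    rw [Finset.mem_filter, hK, Finset.mem_filter, Finset.mem_Icc]
    refine ⟨⟨⟨?_, Int.le_floor.2 ?_⟩, h7⟩, h6⟩
    · rw [Finset.mem_Icc] at h6
      have h8 : (n : ℝ) + a ≤ k := by exact_mod_cast h6.1
      have h9 : (0 : ℝ) < k := by linarith
      have h10 : 0 < k := by exact_mod_cast h9
      omega
    · rw [Finset.mem_Icc] at h6
      have h8 : (k : ℝ) ≤ n + b := by exact_mod_cast h6.2
      linarith
  have hupp : ((∑ k ∈ K, (S.filter (fun n => k ∈ Finset.Icc (n + a) (n + b))).card : ℕ) : ℝ) ≤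
      (K.card : ℝ) * (H / 2) := by
    rw [← nsmul_eq_mul]
    push_cast
    refine Finset.sum_le_card_nsmul _ _ _ (fun k _ => ?_)
    have h3 : (S.filter (fun n => k ∈ Finset.Icc (n + a) (n + b))).card ≤ (Finset.Icc (k - b) (k - a)).card := by
      refine Finset.card_le_card (fun n hn => ?_)
      rw [Finset.mem_filter, Finset.mem_Icc] at hn
      rw [Finset.mem_Icc]
      omega
    refine (Nat.cast_le.2 h3).trans ?_
    rw [Int.card_Icc]
    rcases le_or_gt 0 (k - a + 1 - (k - b)) with h4 | h4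
    · have h5 : ((k - a + 1 - (k - b)).toNat : ℝ) = ((k - a + 1 - (k - b) : ℤ) : ℝ) := by
        have h := Int.toNat_of_nonneg h4
        exact_mod_cast congrArg (Int.cast : ℤ → ℝ) h
      rw [h5]
      push_cast
      linarith
    · rw [Int.toNat_of_nonpos h4.le]
      push_cast
      linarith
  have hfin : (S.card : ℝ) * (H / 5) ≤ (K.card : ℝ) * (H / 2) := by
    refine hlow.trans ?_
    rw [hsum]
    exact hupp
  have hH0 : 0 < H := by linarith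
  have hSK : 2 / 5 * (S.card : ℝ) ≤ K.card := by
    have h3 : H * (2 / 5 * (S.card : ℝ)) ≤ H * K.card := by nlinarith
    exact le_of_mul_le_mul_left h3 hH0
  calc c / 10 * D * x = 2 / 5 * (c * D * y) := by rw [hy]; ring
    _ ≤ 2 / 5 * S.card := mul_le_mul_of_nonneg_left hScard (by norm_num)
    _ ≤ K.card := hSK
    _ ≤ _ := hcN

end Pool.Agent.Helper58.GA
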