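import Pool.Agent.Helper54.GA.Stmts2
import Pool.Agent.Helper8.CO.Den

/-!
# GA-G8: most of the neighbours have merged

`g8`: for all but `C / ε x √((1 + log w) / k)` of the `0 < n ≤ x` at most `ε w` of the `n + h`, `ρ ∣ h`, `|h| ≤ w`, have not merged with `n` at the time `k`
(`2 ^ k ≤ x`): the rate for a pair (G7), `CO.den` for each `h`, and the Markov inequality.
-/

set_option autoImplicit false

namespace Pool.Agent.Helper58.GA

open Pool.Agent.Helper68.Moeller Pool.Agent.Helper8 Pool.Agent.Helper8.CO Pool.Agent.Helper8.ND Pool.Agent.Helper54.GA Finset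

open Classical in
theorem g8 (h7 : StmtG7) : StmtG8 := by
  intro ρ hρ
  obtain ⟨C, hC, h7⟩ := h7
  refine ⟨6 * C, by positivity, fun k x w ε hk hkx hw hε => ?_⟩
  have hx0 : 0 < x := lt_of_lt_of_le (by positivity) hkx
  have hρ0 : ρ ≠ 0 := by
    rintro rfl
    exact absurd hρ (by decide)
  have hρ1 : (1 : ℝ) ≤ |(ρ : ℝ)| := by
    have : (1 : ℤ) ≤ |ρ| := Int.one_le_abs hρ0
    exact_mod_cast this
  obtain ⟨J, hJ⟩ : ∃ J : ℕ, J = ⌊w⌋₊ := ⟨_, rfl⟩
  have hJle : (J : ℝ) ≤ w := by rw [hJ]; exact Nat.floor_le (by linarith)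
  obtain ⟨N, hN⟩ : ∃ N : ℕ, N = ⌊x⌋₊ := ⟨_, rfl⟩
  have hNle : (N : ℝ) ≤ x := by rw [hN]; exact Nat.floor_le hx0.le
  obtain ⟨R, hR⟩ : ∃ R : ℝ, R = Real.sqrt ((1 + Real.log w) / k) := ⟨_, rfl⟩
  have hR0 : 0 ≤ R := by rw [hR]; exact Real.sqrt_nonneg _
  -- the number of the bad `h` for a given `n`
  have hfib : ∀ n : ℤ, {h : ℤ | ρ ∣ h ∧ |(h : ℝ)| ≤ w ∧ ¬ MM ρ k 0 n (n + h)}.ncard ≤
      ((Icc (-(J : ℤ)) J).filter (fun η => ¬ MM ρ k 0 n (n + ρ * η))).card := by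
    intro n
    rw [← Finset.card_image_of_injective ((Icc (-(J : ℤ)) J).filter (fun η => ¬ MM ρ k 0 n (n + ρ * η)))
      (mul_right_injective₀ hρ0), ← Set.ncard_coe_finset]
    refine Set.ncard_le_ncard ?_ (Finset.finite_toSet _)
    rintro h ⟨⟨η, rfl⟩, h2, h3⟩
    rw [Finset.mem_coe, Finset.mem_image]
    refine ⟨η, ?_, rfl⟩
    rw [Finset.mem_filter, Finset.mem_Icc]
    refine ⟨?_, h3⟩
    have h1 : |(η : ℝ)| ≤ w := by
      refine le_trans ?_ h2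
      push_cast
      rw [abs_mul]
      exact le_mul_of_one_le_left (abs_nonneg _) hρ1
    have h4 : η.natAbs ≤ J := by
      rw [hJ]
      refine Nat.le_floor ?_
      rw [Nat.cast_natAbs, Int.cast_abs]
      exact h1
    omega
  -- the bad set
  obtain ⟨A, hA⟩ : ∃ A : Set ℤ, A = {n : ℤ | ε * w <
    ({h : ℤ | ρ ∣ h ∧ |(h : ℝ)| ≤ w ∧ ¬ MM ρ k 0 n (n + h)}.ncard : ℝ)} := ⟨_, rfl⟩
  rw [← hA, ← hR]
  obtain ⟨B, hB⟩ : ∃ B : Finset ℤ, B = (Ioc (0 : ℤ) (0 + N)).filter (fun n => n ∈ A) := ⟨_, rfl⟩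
  have hcN : cN A x ≤ B.card := by
    unfold cN
    refine Nat.cast_le.2 ?_
    rw [← Set.ncard_coe_finset]
    refine Set.ncard_le_ncard (fun n hn => ?_) (Finset.finite_toSet _)
    obtain ⟨h1, h2, h3⟩ := hn
    have hnx : n ≤ (N : ℤ) := by
      rw [hN, Int.natCast_floor_eq_floor hx0.le]
      exact Int.le_floor.2 h3
    rw [Finset.mem_coe, hB, Finset.mem_filter, Finset.mem_Ioc]
    exact ⟨⟨h2, by omega⟩, h1⟩
  have hsum1 : ε * w * B.card ≤ ∑ n ∈ B,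
      (((Icc (-(J : ℤ)) J).filter (fun η => ¬ MM ρ k 0 n (n + ρ * η))).card : ℝ) := by
    rw [mul_comm, ← nsmul_eq_mul]
    refine Finset.card_nsmul_le_sum _ _ _ (fun n hn => ?_)
    rw [hB, Finset.mem_filter, hA] at hn
    exact (le_of_lt hn.2).trans (Nat.cast_le.2 (hfib n))
  have hsum2 : ∑ n ∈ B, (((Icc (-(J : ℤ)) J).filter (fun η => ¬ MM ρ k 0 n (n + ρ * η))).card : ℝ) ≤
      ∑ n ∈ Ioc (0 : ℤ) (0 + N), (((Icc (-(J : ℤ)) J).filter (fun η => ¬ MM ρ k 0 n (n + ρ * η))).card : ℝ) := by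
    rw [hB]
    exact Finset.sum_le_sum_of_subset_of_nonneg (Finset.filter_subset _ _) (fun _ _ _ => Nat.cast_nonneg _)
  have hsum3 : ∑ n ∈ Ioc (0 : ℤ) (0 + N), (((Icc (-(J : ℤ)) J).filter (fun η => ¬ MM ρ k 0 n (n + ρ * η))).card : ℝ) =
      ∑ η ∈ Icc (-(J : ℤ)) J, (((Ioc (0 : ℤ) (0 + N)).filter (fun n => ¬ MM ρ k 0 n (n + ρ * η))).card : ℝ) := by
    have h1 := Finset.sum_card_bipartiteAbove_eq_sum_card_bipartiteBelow
      (s := Ioc (0 : ℤ) (0 + N)) (t := Icc (-(J : ℤ)) J) (fun n η => ¬ MM ρ k 0 n (n + ρ * η))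
    have h2 := congrArg (Nat.cast : ℕ → ℝ) h1
    push_cast at h2
    exact h2
  have hsum4 : ∑ η ∈ Icc (-(J : ℤ)) J, (((Ioc (0 : ℤ) (0 + N)).filter (fun n => ¬ MM ρ k 0 n (n + ρ * η))).card : ℝ) ≤
      (2 * J + 1) * (2 * x * (C * R)) := by
    have h1 : ∀ η ∈ Icc (-(J : ℤ)) J,
        (((Ioc (0 : ℤ) (0 + N)).filter (fun n => ¬ MM ρ k 0 n (n + ρ * η))).card : ℝ) ≤ 2 * x * (C * R) := by
      intro η hη
      rw [Finset.mem_Icc] at hη
      have h2 : |(η : ℝ)| ≤ w := by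
        have h3 : |η| ≤ (J : ℤ) := abs_le.2 hη
        have h4 : |(η : ℝ)| ≤ (J : ℝ) := by exact_mod_cast h3
        exact h4.trans hJle
      have h5 := h7 k η w hk hw h2
      rw [← hR] at h5
      have h6 := den hρ η k 0 N
      have h8 : (0 : ℝ) ≤ (N : ℝ) + 2 ^ k := by positivity
      calc (((Ioc (0 : ℤ) (0 + N)).filter (fun n => ¬ MM ρ k 0 n (n + ρ * η))).card : ℝ)
          ≤ (N + 2 ^ k) * uu k (0, η) := by
            refine le_trans (le_of_eq ?_) h6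
            congr!
        _ ≤ (N + 2 ^ k) * (C * R) := mul_le_mul_of_nonneg_left h5 h8
        _ ≤ 2 * x * (C * R) := mul_le_mul_of_nonneg_right (by linarith) (by positivity)
    refine (Finset.sum_le_card_nsmul _ _ _ h1).trans (le_of_eq ?_)
    rw [nsmul_eq_mul, Int.card_Icc]
    congr 1
    have h2 : ((J : ℤ) + 1 - -(J : ℤ)).toNat = 2 * J + 1 := by omega
    rw [h2]
    push_cast
    ring
  have hεw : 0 < ε * w := by positivity
  have hmain : ε * w * cN A x ≤ 3 * w * (2 * x * (C * R)) := by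
    have h1 : ε * w * cN A x ≤ ε * w * B.card := mul_le_mul_of_nonneg_left hcN hεw.le
    have h2 : (2 * (J : ℝ) + 1) * (2 * x * (C * R)) ≤ 3 * w * (2 * x * (C * R)) :=
      mul_le_mul_of_nonneg_right (by linarith) (by positivity)
    linarith
  calc cN A x = (ε * w * cN A x) / (ε * w) := by field_simp
    _ ≤ (3 * w * (2 * x * (C * R))) / (ε * w) := div_le_div_of_nonneg_right hmain hεw.le
    _ = 6 * C / ε * R * x := by field_simp; ring

end Pool.Agent.Helper58.GA
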